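import Pool.Agent.Lib.MP_af3a4a_an.P1.H28.Cost
import Pool.Agent.Lib.MP_af3a4a_an.P1.H80.Contour

/-!
# BIGR: the statements proved by the boxes, and how they are glued (council 2, helper79)

`NM = N M*`, `M* = (R - 1 + R m₁)/(R² - 1)`. Units: `K`, `Km` in `1/16`, `1/R` in `1/1024`, `μ₁` in
`1/512` (shifted by `512`).
-/

set_option autoImplicit false

namespace Pool.Agent.Lib.MP_af3a4a_an.P1.H79

open Pool.Agent.Lib.MP_af3a4a_an.SV (uu av)
open Pool.Agent.Lib.MP_af3a4a_an.P1.H80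

/-- `N M*` -/
noncomputable def NM (N : ℕ) (w : Fin N → ℂ) (R : ℝ) : ℝ :=
  N * (R - 1 + R * (av (uu w)).re) / (R ^ 2 - 1)

/-- `Re μ` for the parameter `K` -/
noncomputable def mu1 (N : ℕ) (w : Fin N → ℂ) (R K : ℝ) : ℝ :=
  (N * (av (uu w)).re - (N - K) / R) / K

/-- the hypotheses common to all boxes -/
structure Hyp (E0 E1 : ℕ) (N : ℕ) (z w : Fin N → ℂ) (R : ℝ) (σ : Fin N → ℂ) : Prop where
  cfg : Cfg2 N z w R σ
  hN : 6 ≤ N
  hR : 29 / 12 ≤ R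
  e0 : (E0 : ℝ) / 1024 ≤ 1 / R
  e1 : 1 / R ≤ (E1 : ℝ) / 1024

/-- no configuration with `1/R` in `[E0, E1]/1024`, `N M*` in `(Km, K]/16`, `μ₁` in `[a - 512, b - 512]/512` -/
def Ex (Km K E0 E1 a b : ℕ) : Prop :=
  ∀ (N : ℕ) (z w : Fin N → ℂ) (R : ℝ) (σ : Fin N → ℂ), Hyp E0 E1 N z w R σ →
    (Km : ℝ) / 16 < NM N w R → NM N w R ≤ (K : ℝ) / 16 →
    ((a : ℝ) - 512) / 512 ≤ mu1 N w R (K / 16) → mu1 N w R (K / 16) ≤ ((b : ℝ) - 512) / 512 → False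

/-- no configuration with `1/R` in `[E0, E1]/1024`, `N M*` in `(Km, K]/16` -/
def Cov (Km K E0 E1 : ℕ) : Prop :=
  ∀ (N : ℕ) (z w : Fin N → ℂ) (R : ℝ) (σ : Fin N → ℂ), Hyp E0 E1 N z w R σ →
    (Km : ℝ) / 16 < NM N w R → NM N w R ≤ (K : ℝ) / 16 → False

/-- no configuration with `1/R` in `[E0, E1]/1024`, `N M* ≤ 20` -/
def Rng (E0 E1 : ℕ) : Prop :=
  ∀ (N : ℕ) (z w : Fin N → ℂ) (R : ℝ) (σ : Fin N → ℂ), Hyp E0 E1 N z w R σ →
    NM N w R ≤ 20 → False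

theorem Ex.glue {Km K E0 E1 a b c : ℕ} (h1 : Ex Km K E0 E1 a b) (h2 : Ex Km K E0 E1 b c) :
    Ex Km K E0 E1 a c := by
  intro N z w R σ H k1 k2 l1 l2
  rcases le_total (mu1 N w R (K / 16)) (((b : ℝ) - 512) / 512) with h | h
  · exact h1 N z w R σ H k1 k2 l1 h
  · exact h2 N z w R σ H k1 k2 h l2

theorem Hyp.mono {E0 E1 F0 F1 N : ℕ} {z w : Fin N → ℂ} {R : ℝ} {σ : Fin N → ℂ}
    (H : Hyp E0 E1 N z w R σ) (h0 : F0 ≤ E0) (h1 : E1 ≤ F1) : Hyp F0 F1 N z w R σ := by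
  have h0' : (F0 : ℝ) ≤ E0 := by exact_mod_cast h0
  have h1' : (E1 : ℝ) ≤ F1 := by exact_mod_cast h1
  refine ⟨H.cfg, H.hN, H.hR, le_trans ?_ H.e0, H.e1.trans ?_⟩ <;> linarith

theorem Hyp.split {E0 E1 F N : ℕ} {z w : Fin N → ℂ} {R : ℝ} {σ : Fin N → ℂ}
    (H : Hyp E0 E1 N z w R σ) : Hyp E0 F N z w R σ ∨ Hyp F E1 N z w R σ := by
  rcases le_total (1 / R) ((F : ℝ) / 1024) with h | h
  · exact Or.inl ⟨H.cfg, H.hN, H.hR, H.e0, h⟩
  · exact Or.inr ⟨H.cfg, H.hN, H.hR, h, H.e1⟩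

/-- in the direction of `1/R` -/
theorem Ex.eps {Km K E0 E1 E2 a b : ℕ} (h1 : Ex Km K E0 E1 a b) (h2 : Ex Km K E1 E2 a b) :
    Ex Km K E0 E2 a b := by
  intro N z w R σ H k1 k2 l1 l2
  rcases H.split (F := E1) with h | h
  · exact h1 N z w R σ h k1 k2 l1 l2
  · exact h2 N z w R σ h k1 k2 l1 l2

theorem Cov.eps {Km K E0 E1 E2 : ℕ} (h1 : Cov Km K E0 E1) (h2 : Cov Km K E1 E2) :
    Cov Km K E0 E2 := by
  intro N z w R σ H k1 k2
  rcases H.split (F := E1) with h | h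
  · exact h1 N z w R σ h k1 k2
  · exact h2 N z w R σ h k1 k2

theorem Cov.K {Km K K' E0 E1 : ℕ} (h1 : Cov Km K E0 E1) (h2 : Cov K K' E0 E1) :
    Cov Km K' E0 E1 := by
  intro N z w R σ H k1 k2
  rcases le_or_gt (NM N w R) ((K : ℝ) / 16) with h | h
  · exact h1 N z w R σ H k1 h
  · exact h2 N z w R σ H h k2

theorem Cov.mono {Km K Km' K' E0 E1 F0 F1 : ℕ} (h : Cov Km K E0 E1) (h1 : Km ≤ Km') (h2 : K' ≤ K)
    (h3 : E0 ≤ F0) (h4 : F1 ≤ E1) : Cov Km' K' F0 F1 := by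
  intro N z w R σ H k1 k2
  have h1' : (Km : ℝ) ≤ Km' := by exact_mod_cast h1
  have h2' : (K' : ℝ) ≤ K := by exact_mod_cast h2
  exact h N z w R σ (H.mono h3 h4) (by linarith) (by linarith)

theorem Rng.eps {E0 E1 E2 : ℕ} (h1 : Rng E0 E1) (h2 : Rng E1 E2) : Rng E0 E2 := by
  intro N z w R σ H k
  rcases H.split (F := E1) with h | h
  · exact h1 N z w R σ h k
  · exact h2 N z w R σ h k

section

variable {E0 E1 N : ℕ} {z w : Fin N → ℂ} {R : ℝ} {σ : Fin N → ℂ}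

/-- `Re m ≥ 0` -/
theorem m1_nonneg (hC : Cfg2 N z w R σ) : 0 ≤ (av (uu w)).re := by
  have hN : 1 ≤ N := by linarith [hC.hN]
  have hR := hC.hR
  have hNpos : (0 : ℝ) < N := by exact_mod_cast hN
  have h1 : ∀ k, 1 - R * (uu w k).re ≤ ‖w k - (R : ℂ)‖ := by
    intro k
    have hw := hC.cfg.far k
    have hw0 := hC.cfg.w_ne k
    have e1 : 1 - (R : ℂ) * uu w k = (w k - R) * (w k)⁻¹ := by
      simp only [uu]
      rw [sub_mul, mul_inv_cancel₀ hw0]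
    have e2 : (1 - (R : ℂ) * uu w k).re = 1 - R * (uu w k).re := by
      rw [Complex.sub_re, Complex.one_re, Complex.re_ofReal_mul]
    rw [← e2]
    refine (Complex.re_le_norm _).trans ?_
    rw [e1, norm_mul, norm_inv]
    exact mul_le_of_le_one_right (norm_nonneg _) (inv_le_one_of_one_le₀ hw)
  have h2 : ∑ k, (1 - R * (uu w k).re) ≤ N :=
    (Finset.sum_le_sum fun k _ => h1 k).trans hC.dist.le
  have h3 : ∑ k, (uu w k).re = N * (av (uu w)).re := by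
    have hN0 : (N : ℂ) ≠ 0 := by exact_mod_cast (by omega : N ≠ 0)
    have h3 : ∑ k, uu w k = (N : ℂ) * av (uu w) := by
      unfold av
      rw [← mul_assoc, mul_one_div_cancel hN0, one_mul]
    have h4 := congrArg Complex.re h3
    rw [Complex.re_sum] at h4
    rw [h4]
    have := Complex.re_ofReal_mul (N : ℝ) (av (uu w))
    push_cast at this
    exact this
  rw [Finset.sum_sub_distrib, ← Finset.mul_sum, h3] at h2
  simp only [Finset.sum_const, Finset.card_univ, Fintype.card_fin, nsmul_eq_mul, mul_one] at h2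
  have h4 : 0 ≤ R * (N * (av (uu w)).re) := by linarith
  have h5 : 0 ≤ N * (av (uu w)).re := nonneg_of_mul_nonneg_right h4 hR
  exact nonneg_of_mul_nonneg_right h5 hNpos

/-- `N/(R + 1) ≤ N M*` -/
theorem NM_ge (hC : Cfg2 N z w R σ) (hR : 1 < R) : N / (R + 1) ≤ NM N w R := by
  have h := m1_nonneg hC
  have hb : 0 < R ^ 2 - 1 := by nlinarith
  unfold NM
  rw [div_le_div_iff₀ (by linarith) hb]
  have h2 : (0 : ℝ) ≤ N * (R * (av (uu w)).re) * (R + 1) := by positivity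
  nlinarith

/-- `N M* > 19/16` -/
theorem Hyp.NM_gt (H : Hyp E0 E1 N z w R σ) : (19 : ℝ) / 16 < NM N w R := by
  have hR := H.hR
  have h1 := NM_ge H.cfg (by linarith)
  have h2 := large_R H.cfg
  have hN : (6 : ℝ) ≤ N := by exact_mod_cast H.hN
  refine lt_of_lt_of_le ?_ h1
  rw [lt_div_iff₀ (by linarith)]
  linarith

theorem Rng.of_Cov {E0 E1 : ℕ} (h : Cov 19 320 E0 E1) : Rng E0 E1 := by
  intro N z w R σ H k
  exact h N z w R σ H (by exact_mod_cast H.NM_gt) (by push_cast; linarith)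

/-- **assembly** -/
theorem high_of (h1 : Rng 0 424)
    (h2 : ∀ (N : ℕ) (z w : Fin N → ℂ) (R : ℝ) (σ : Fin N → ℂ), Cfg2 N z w R σ → 6 ≤ N →
      29 / 12 ≤ R → 20 < NM N w R → False) {N : ℕ} (hN : 6 ≤ N) {z w : Fin N → ℂ} {R : ℝ}
    {σ : Fin N → ℂ} (hC : Cfg2 N z w R σ) : R ≤ 29 / 12 := by
  by_contra hcon
  push Not at hcon
  rcases le_or_gt (NM N w R) 20 with h | h
  · refine h1 N z w R σ ⟨hC, hN, hcon.le, ?_, ?_⟩ h
    · rw [Nat.cast_zero, zero_div]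
      have : 0 < R := by linarith
      positivity
    · rw [div_le_div_iff₀ (by linarith) (by norm_num)]
      push_cast
      linarith
  · exact h2 N z w R σ hC hN hcon.le h

end

end Pool.Agent.Lib.MP_af3a4a_an.P1.H79
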